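import Mathlib

set_option autoImplicit false

namespace Pool.Agent.Results.MP_d7144b_an.Yes

open Filter Topology Set
open scoped ENNReal

/-- complete p-norm -/
def PB (p : ℝ) {Z : Type} [AddCommGroup Z] [Module ℝ Z] (ν : Z → ℝ) : Prop :=
  (∀ x, 0 ≤ ν x) ∧ (∀ x, x ≠ 0 → 0 < ν x) ∧ (∀ (a : ℝ) x, ν (a • x) = |a| * ν x) ∧
  (∀ x y, ν (x + y) ^ p ≤ ν x ^ p + ν y ^ p) ∧
  ∀ u : ℕ → Z, (∀ ε > 0, ∃ N, ∀ m ≥ N, ∀ n ≥ N, ν (u m - u n) ^ p < ε) →
    ∃ z, Tendsto (fun n => ν (u n - z) ^ p) atTop (𝓝 0)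

/-- Lipschitz constant -/
noncomputable def Lip {M Z : Type} [MetricSpace M] [AddCommGroup Z] (ν : Z → ℝ) (f : M → Z) : ℝ≥0∞ :=
  ⨆ (x : M) (y : M) (_ : x ≠ y), ENNReal.ofReal (ν (f x - f y) / dist x y)

/-- the p-trace along an embedding -/
noncomputable def t (p : ℝ) {N M : Type} [MetricSpace N] [MetricSpace M] (j : N → M) : ℝ≥0∞ :=
  sInf {C | 0 < C ∧ ∀ (Z : Type) [AddCommGroup Z] [Module ℝ Z] (ν : Z → ℝ), PB p ν →
    ∀ f : N → Z, Lip ν f < ⊤ → ∃ F : M → Z, (∀ x, F (j x) = f x) ∧ Lip ν F ≤ C * Lip ν f}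

/-- absolute extendability constant -/
noncomputable def ae (p : ℝ) (N : Type) [MetricSpace N] : ℝ≥0∞ :=
  ⨆ (M : Type) (_ : MetricSpace M) (j : N → M) (_ : Isometry j), t p j

/-- doubling with `n` balls -/
def Doub (N : Type) [MetricSpace N] (n : ℕ) : Prop := ∀ (x : N) (r : ℝ), 0 < r →
  ∃ c : Fin n → N, Metric.closedBall x (2 * r) ⊆ ⋃ i, Metric.closedBall (c i) r

theorem lip_le {M Z : Type} [MetricSpace M] [AddCommGroup Z] {ν : Z → ℝ} {f : M → Z} {L : ℝ}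
    (h : 0 ≤ L) : Lip ν f ≤ ENNReal.ofReal L ↔ ∀ x y, x ≠ y → ν (f x - f y) ≤ L * dist x y := by
  simp only [Lip, iSup_le_iff, ENNReal.ofReal_le_ofReal_iff h]
  exact forall₃_congr fun x y h => div_le_iff₀ (dist_pos.2 h)

/-- p-th power of the p-norm -/
noncomputable def g (p : ℝ) (v : ℝ × ℝ) : ℝ := ⨅ c : ℝ, |v.1 - c| ^ p + |v.2 - c| ^ p + |c| ^ p

theorem g_le (p : ℝ) (v : ℝ × ℝ) (c : ℝ) : g p v ≤ |v.1 - c| ^ p + |v.2 - c| ^ p + |c| ^ p :=
  ciInf_le ⟨0, by rintro _ ⟨c, rfl⟩; positivity⟩ c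

theorem g0 (p : ℝ) (v : ℝ × ℝ) : 0 ≤ g p v := le_ciInf fun c => by positivity

variable {p : ℝ} (p0 : 0 < p) (p1 : p ≤ 1)
include p0 p1

theorem sub (a b : ℝ) : |a + b| ^ p ≤ |a| ^ p + |b| ^ p :=
  (Real.rpow_le_rpow (abs_nonneg _) (abs_add_le a b) p0.le).trans
    (Real.rpow_add_le_add_rpow (abs_nonneg _) (abs_nonneg _) p0.le p1)

theorem le_g (v : ℝ × ℝ) : ‖v‖ ≤ g p v ^ p⁻¹ := by
  rw [Real.le_rpow_inv_iff_of_pos (norm_nonneg _) (g0 _ _) p0]
  refine le_ciInf fun c => ?_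
  have a := sub p0 p1 (v.1 - c) c
  have b := sub p0 p1 (v.2 - c) c
  have : 0 ≤ |v.1 - c| ^ p := by positivity
  have : 0 ≤ |v.2 - c| ^ p := by positivity
  rw [sub_add_cancel] at a b
  rw [Prod.norm_def, Real.norm_eq_abs, Real.norm_eq_abs]
  rcases max_choice |v.1| |v.2| with h | h <;> rw [h] <;> linarith

theorem pb : PB p fun v => g p v ^ p⁻¹ := by
  have e : ∀ v, (g p v ^ p⁻¹) ^ p = g p v := fun v => Real.rpow_inv_rpow (g0 _ _) p0.ne'
  refine ⟨fun v => Real.rpow_nonneg (g0 _ _) _, fun v h => (norm_pos_iff.2 h).trans_le (le_g p0 p1 v),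
    fun a v => ?_, fun v w => ?_, fun u hu => ?_⟩
  · have : g p (a • v) = |a| ^ p * g p v := by
      by_cases h : a = 0
      · simpa [h, p0.ne'] using le_antisymm (by simpa [p0.ne'] using g_le p 0 0) (g0 p 0)
      rw [g, g, Real.mul_iInf_of_nonneg (by positivity), ← (mul_left_surjective₀ h).iInf_comp]
      congr! 1 with c
      simp [← mul_sub, mul_add, Real.mul_rpow]
    beta_reduce
    rw [this, Real.mul_rpow (by positivity) (g0 _ _), Real.rpow_rpow_inv (abs_nonneg _) p0.ne']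
  · simp only [e]
    refine le_ciInf_add_ciInf fun c d => (g_le p _ (c + d)).trans ?_
    have a := sub p0 p1 (v.1 - c) (w.1 - d)
    have b := sub p0 p1 (v.2 - c) (w.2 - d)
    rw [← add_sub_add_comm] at a b
    have := sub p0 p1 c d
    simp only [Prod.fst_add, Prod.snd_add]
    linarith
  · obtain ⟨z, hz⟩ := cauchySeq_tendsto_of_complete (u := u) (Metric.cauchySeq_iff.2 fun ε h => by
      obtain ⟨N, hN⟩ := hu (ε ^ p) (by positivity)
      exact ⟨N, fun m a n b => (dist_eq_norm _ _).trans_lt ((le_g p0 p1 _).trans_lt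
        (lt_of_not_ge fun c => (hN m a n b).not_ge (Real.rpow_le_rpow h.le c p0.le)))⟩)
    simp only [e]
    refine ⟨z, squeeze_zero (fun _ => g0 _ _) (fun n => g_le p _ 0) ?_⟩
    have : Continuous fun v : ℝ × ℝ => |(v - z).1 - 0| ^ p + |(v - z).2 - 0| ^ p + |(0 : ℝ)| ^ p :=
      ((Continuous.rpow_const (by fun_prop) fun _ => .inr p0.le).add
        (Continuous.rpow_const (by fun_prop) fun _ => .inr p0.le)).add continuous_const
    simpa [p0.ne', Function.comp_def] using (this.tendsto z).comp hz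

omit p1 in
theorem near (v : ℝ × ℝ) (η : ℝ) (h0 : 0 < η) (h : g p v < 2 * η ^ p) :
    |v.1| < 2 * η ∨ |v.2| < 2 * η ∨ |v.1 - v.2| < 2 * η := by
  obtain ⟨c, hc⟩ := exists_lt_of_ciInf_lt h
  have k : ∀ a b d : ℝ, |a| ^ p + |b| ^ p + |d| ^ p < 2 * η ^ p → |a| < η ∨ |b| < η := fun a b d h => by
    by_contra! c
    have := Real.rpow_le_rpow h0.le c.1 p0.le
    have := Real.rpow_le_rpow h0.le c.2 p0.le
    have : 0 ≤ |d| ^ p := by positivity
    linarith
  have a := k _ _ _ hc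
  have b := k (v.1 - c) c (v.2 - c) (by linarith)
  have d := k (v.2 - c) c (v.1 - c) (by linarith)
  simp only [abs_lt] at *
  grind

omit p1 in
theorem ax (v : ℝ × ℝ) (d : ℝ) (h : v.1 = 0 ∨ v.2 = 0 ∨ v.1 = v.2) (h1 : |v.1| ≤ d) (h2 : |v.2| ≤ d) :
    g p v ≤ d ^ p := by
  have a := Real.rpow_le_rpow (abs_nonneg _) h1 p0.le
  have b := Real.rpow_le_rpow (abs_nonneg _) h2 p0.le
  rcases h with h | h | h
  · exact (g_le p v 0).trans (by simpa [h, p0.ne'] using b)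
  · exact (g_le p v 0).trans (by simpa [h, p0.ne'] using a)
  · exact (g_le p v v.2).trans (by simpa [h, p0.ne'] using b)

omit p0 p1

/-- three points -/
abbrev NN := ({0, 1, 3} : Set ℝ)

/-- the test map -/
noncomputable def P (x : NN) : ℝ × ℝ := (min x.1 1, max (x.1 - 1) 0 / 2)

theorem lipP {p : ℝ} (p0 : 0 < p) : Lip (fun v => g p v ^ p⁻¹) P ≤ ENNReal.ofReal 1 :=
  (lip_le zero_le_one).2 fun x y _ => by
    rw [Real.rpow_inv_le_iff_of_pos (g0 _ _) (by positivity) p0, one_mul, Subtype.dist_eq,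
      Real.dist_eq]
    obtain ⟨x, rfl | rfl | rfl⟩ := x <;> obtain ⟨y, rfl | rfl | rfl⟩ := y <;>
      refine ax p0 _ _ ?_ ?_ ?_ <;> norm_num [P]

theorem low (L : ℝ) (L0 : 0 < L) :
    ∀ᶠ p in 𝓝[>] (0 : ℝ), ENNReal.ofReal L ≤ t p (Subtype.val : NN → ℝ) := by
  have := ((Real.continuousAt_const_rpow (a := L * 3 / (1 / 8)) (b := 0) (by positivity)).eventually
    (gt_mem_nhds (show _ < 2 by simp))).filter_mono (nhdsWithin_le_nhds (s := Ioi 0))
  filter_upwards [this, Ioc_mem_nhdsGT zero_lt_one] with p hp ⟨p0, p1⟩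
  refine le_sInf fun C hC => le_of_not_gt fun c => ?_
  have f1 := lipP p0
  obtain ⟨F, F1, F2⟩ := hC.2 _ _ (pb p0 p1) _ (f1.trans_lt (by simp))
  have F3 := (lip_le L0.le).1 (F2.trans ((mul_le_mul' c.le f1).trans_eq (by simp)))
  have F4 : ∀ x y, |x - y| ≤ 3 → g p (F x - F y) < 2 * (1 / 8) ^ p := fun x y h => by
    rw [Real.div_rpow (by positivity) (by positivity), div_lt_iff₀ (by positivity)] at hp
    refine lt_of_le_of_lt ?_ hp
    by_cases e : x = y
    · exact ax p0 _ _ (by simp [e]) (by simp [e]; positivity) (by simp [e]; positivity)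
    rw [← Real.rpow_inv_le_iff_of_pos (g0 _ _) (by positivity) p0]
    exact (F3 x y e).trans (mul_le_mul_of_nonneg_left h L0.le)
  have e0 : F 0 = (0, 0) := (F1 ⟨_, by simp⟩).trans (by simp [P])
  have e1 : F 1 = (1, 0) := (F1 ⟨_, by simp⟩).trans (by simp [P])
  have e2 : F 3 = (1, 1) := (F1 ⟨_, by simp⟩).trans (by norm_num [P])
  have ct : Continuous F := (LipschitzWith.of_dist_le' (K := L) fun x y => by
    by_cases e : x = y
    · simp [e]
    · exact (dist_eq_norm _ _).trans_le ((le_g p0 p1 _).trans (F3 x y e))).continuous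
  obtain ⟨x, ⟨x1, x3⟩, hx⟩ := intermediate_value_Icc (show (1 : ℝ) ≤ 3 by norm_num)
    ct.snd.continuousOn (show 1 / 2 ∈ _ by norm_num [e1, e2])
  have b := fun y (h0 : 0 ≤ y) (h3 : y ≤ 3) => near p0 _ _ (by norm_num)
    (F4 x y (abs_le.2 ⟨by linarith, by linarith⟩))
  have b0 := b 0 le_rfl (by norm_num)
  have b1 := b 1 (by norm_num) (by norm_num)
  have b2 := b 3 (by norm_num) le_rfl
  simp only [e0, e1, e2, Prod.fst_sub, Prod.snd_sub, hx, abs_lt] at b0 b1 b2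
  grind

theorem one : ae 1 NN = 1 := by
  refine le_antisymm (iSup₂_le fun M _ => iSup₂_le fun j hj => sInf_le ⟨by simp, ?_⟩)
    (le_iSup₂_of_le NN inferInstance (le_iSup₂_of_le id isometry_id (le_sInf fun C hC => ?_)))
  · intro Z _ _ ν ⟨n0, _, n1, n2, _⟩ f hf
    simp only [Real.rpow_one] at n2
    obtain ⟨r, r1, r2⟩ := LipschitzOnWith.extend_real (K := 1) (s := range j)
      (f := Function.extend j Subtype.val 0) (by
        rintro _ ⟨x, rfl⟩ _ ⟨y, rfl⟩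
        simp [hj.injective.extend_apply, hj.edist_eq, Subtype.edist_eq])
    have r3 : ∀ x, r (j x) = x := fun x => (r2 ⟨x, rfl⟩).symm.trans (hj.injective.extend_apply _ _ _)
    have a := (lip_le ENNReal.toReal_nonneg).1 (ENNReal.ofReal_toReal hf.ne).ge
    let x0 : NN := ⟨0, by simp⟩
    let x1 : NN := ⟨1, by simp⟩
    let x3 : NN := ⟨3, by simp⟩
    refine ⟨fun m => f x1 + (1 - min (r m) 1) • (f x0 - f x1) + ((max (r m) 1 - 1) / 2) • (f x3 - f x1),
      ?_, ?_⟩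
    · rintro ⟨x, rfl | rfl | rfl⟩ <;> norm_num [r3, x0, x1, x3]
    rw [one_mul, ← ENNReal.ofReal_toReal hf.ne, lip_le ENNReal.toReal_nonneg]
    intro u v _
    have a0 := a x0 x1 (by simp [x0, x1])
    have a3 := a x3 x1 (by simp [x3, x1])
    have d : |r u - r v| ≤ dist u v := by simpa [Real.dist_eq] using r1.dist_le_mul u v
    have K0 : 0 ≤ (Lip ν f).toReal := ENNReal.toReal_nonneg
    generalize (Lip ν f).toReal = K at *
    norm_num [x0, x1, x3, Subtype.dist_eq, Real.dist_eq] at a0 a3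
    rw [show ∀ a b c : Z, ∀ s t s' t' : ℝ, a + s • b + t • c - (a + s' • b + t' • c) =
      (s - s') • b + (t - t') • c from fun _ _ _ _ _ _ _ => by module]
    refine (n2 _ _).trans ?_
    rw [n1, n1]
    refine (add_le_add (mul_le_mul_of_nonneg_left a0 (abs_nonneg _))
      (mul_le_mul_of_nonneg_left a3 (abs_nonneg _))).trans ?_
    rw [mul_comm _ K, mul_left_comm, ← mul_add]
    refine mul_le_mul_of_nonneg_left (le_trans ?_ d) K0
    grind
  · have f1 := (lipP one_pos).trans_lt ENNReal.ofReal_lt_top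
    obtain ⟨F, F1, F2⟩ := hC.2 _ _ (pb one_pos le_rfl) _ f1
    obtain rfl : F = P := funext F1
    refine (ENNReal.mul_le_mul_iff_left (fun h => ?_) f1.ne).1 ((one_mul _).trans_le F2)
    have := (lip_le le_rfl).1 (h.le.trans zero_le) ⟨0, by simp⟩ ⟨1, by simp⟩ (by simp)
    exact ((pb one_pos le_rfl).2.1 _ (by simp [P])).not_ge (this.trans_eq (zero_mul _))

theorem result : ∀ n ≥ 2, ∃ (N : Type) (_ : MetricSpace N), Doub N n ∧ ae 1 N = 1 ∧
    Tendsto (fun p => ae p N / ae 1 N) (𝓝[>] 0) (𝓝 ⊤) := by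
  refine fun n hn => ⟨NN, inferInstance, fun x r r0 => ?_, one,
    ENNReal.tendsto_nhds_top_iff_nat.2 fun m => ?_⟩
  · have : ∃ a b, Metric.closedBall x (2 * r) ⊆ Metric.closedBall a r ∪ Metric.closedBall b r := by
      by_cases h : 1 ≤ r
      · refine ⟨⟨0, by simp⟩, ⟨3, by simp⟩, ?_⟩
        rintro ⟨y, rfl | rfl | rfl⟩ _ <;> simp [Subtype.dist_eq, r0.le, h]
      · refine ⟨if x.1 = 3 then x else ⟨0, by simp⟩, ⟨1, by simp⟩, ?_⟩
        obtain ⟨x, rfl | rfl | rfl⟩ := x <;> rintro ⟨y, rfl | rfl | rfl⟩ hy <;>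
          norm_num [Subtype.dist_eq, r0.le, Real.dist_eq] at hy ⊢ <;> linarith
    obtain ⟨a, b, h⟩ := this
    refine ⟨fun i => if i.1 = 0 then a else b, h.trans (union_subset ?_ ?_)⟩
    · exact subset_iUnion_of_subset ⟨0, by omega⟩ (by simp)
    · exact subset_iUnion_of_subset ⟨1, by omega⟩ (by simp)
  · filter_upwards [low (m + 1) (by positivity)] with p hp
    rw [one, div_one]
    refine lt_of_lt_of_le ?_ (hp.trans (le_iSup₂_of_le ℝ inferInstance
      (le_iSup₂_of_le _ isometry_subtype_coe le_rfl)))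
    rw [← ENNReal.ofReal_natCast, ENNReal.ofReal_lt_ofReal_iff (by positivity)]
    simp

end Pool.Agent.Results.MP_d7144b_an.Yes
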